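import Pool.Agent.H1.MNA.Stmts

set_option autoImplicit false

open Complex MeasureTheory Set Metric
open scoped Real ENNReal ComplexConjugate

namespace Pool.MNA

theorem det_thm : DET_S := by
  intro β A hA
  have h1 : A.det = LinearMap.det (A : ℂ →ₗ[ℝ] ℂ) := rfl
  rw [h1, ← LinearMap.det_toMatrix Complex.basisOneI, Matrix.det_fin_two]
  simp only [LinearMap.toMatrix_apply, Complex.coe_basisOneI, Complex.coe_basisOneI_repr,
    ContinuousLinearMap.coe_coe, Matrix.cons_val_zero, Matrix.cons_val_one, hA]
  rw [← Complex.normSq_eq_norm_sq, Complex.normSq_apply]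
  simp
  ring

end Pool.MNA
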